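import Mathlib

/-!
# APS-fairness does not imply PROP1 for unequal entitlements

An agent with entitlement `w > 1/2` values one big item at `K` and `K` small items at `1` each.
Pricing the big item at `1` shows that the AnyPrice share is `K`, so the bundle consisting of the
big item alone is APS-fair, while the proportional share is `2 w K`, which exceeds `K + c` when
`K` is large.
-/

set_option autoImplicit false

namespace Pool.Agent.Results.MP_4956c5_co.NotPropC

open Finset

/-- A price vector: nonnegative prices with total `1`. -/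
def IsPrice {m : ℕ} (p : Fin m → ℝ) : Prop :=
  (∀ j, 0 ≤ p j) ∧ ∑ j, p j = 1

/-- `y` is the largest value (for the additive valuation `v`) of a bundle that costs at most `w`
under the prices `p`. -/
def IsBest {m : ℕ} (v : Fin m → ℝ) (w : ℝ) (p : Fin m → ℝ) (y : ℝ) : Prop :=
  IsGreatest {x : ℝ | ∃ S : Finset (Fin m), ∑ j ∈ S, p j ≤ w ∧ x = ∑ j ∈ S, v j} y

/-- `z` is the AnyPrice share of an agent with additive valuation `v` and entitlement `w`: the
minimum, over all price vectors, of the largest value of an affordable bundle. -/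
def IsAPS {m : ℕ} (v : Fin m → ℝ) (w : ℝ) (z : ℝ) : Prop :=
  IsLeast {y : ℝ | ∃ p : Fin m → ℝ, IsPrice p ∧ IsBest v w p y} z

/-- The bundles `A i` form a partition of the set of items (some bundles may be empty). -/
def IsAllocation {n m : ℕ} (A : Fin n → Finset (Fin m)) : Prop :=
  ∀ g : Fin m, ∃! i : Fin n, g ∈ A i

/-- The allocation `A` gives each agent at least her AnyPrice share. -/
def APSFair {n m : ℕ} (v : Fin n → Fin m → ℝ) (w : Fin n → ℝ) (A : Fin n → Finset (Fin m)) :
    Prop :=
  ∀ i : Fin n, ∃ z : ℝ, IsAPS (v i) (w i) z ∧ z ≤ ∑ j ∈ A i, v i j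

theorem exists_best {m : ℕ} (v : Fin m → ℝ) {w : ℝ} (hw : 0 ≤ w) (p : Fin m → ℝ) :
    ∃ y, IsBest v w p y := by
  classical
  let F : Finset (Finset (Fin m)) := univ.filter fun S => ∑ j ∈ S, p j ≤ w
  have hF : F.Nonempty := ⟨∅, by simp [F, hw]⟩
  obtain ⟨S, hS, hmax⟩ := F.exists_max_image (fun S => ∑ j ∈ S, v j) hF
  refine ⟨∑ j ∈ S, v j, ⟨S, (mem_filter.1 hS).2, rfl⟩, ?_⟩
  rintro x ⟨T, hT, rfl⟩
  exact hmax T (by simp [F, hT])

theorem exists_aps {m : ℕ} (hm : 0 < m) (v : Fin m → ℝ) {w : ℝ} (hw : 0 ≤ w) :
    ∃ z, IsAPS v w z := by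
  classical
  have hfin : {y : ℝ | ∃ p : Fin m → ℝ, IsPrice p ∧ IsBest v w p y}.Finite := by
    refine (Set.finite_range fun S : Finset (Fin m) => ∑ j ∈ S, v j).subset ?_
    rintro y ⟨p, -, ⟨⟨S, -, hS⟩, -⟩⟩
    exact ⟨S, hS.symm⟩
  have hne : {y : ℝ | ∃ p : Fin m → ℝ, IsPrice p ∧ IsBest v w p y}.Nonempty := by
    let p : Fin m → ℝ := Pi.single ⟨0, hm⟩ 1
    obtain ⟨y, hy⟩ := exists_best v hw p
    refine ⟨y, p, ⟨fun j => ?_, ?_⟩, hy⟩
    · by_cases h : j = ⟨0, hm⟩
      · subst h; simp [p]
      · simp [p, h]
    · simp [p]
  obtain ⟨z, hz, hmin⟩ := Set.exists_min_image _ id hfin hne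
  exact ⟨z, hz, fun y hy => hmin y hy⟩

/-- **Theorem.** For every number `n` of agents, every vector of entitlements `w` in which some
agent `i` has entitlement above `1/2` and every `c`, there are finitely many goods, nonnegative
additive valuations and an APS-fair allocation such that agent `i` stays strictly below her
proportional share even after receiving any `c` further items. With `c = 1` this is the failure
of PROP1. -/
theorem result :
    ∀ (n : ℕ) (w : Fin n → ℝ) (i : Fin n) (c : ℕ), 2 ≤ n → (∀ j, 0 < w j) → ∑ j, w j = 1 →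
      1 / 2 < w i →
      ∃ (m : ℕ) (v : Fin n → Fin m → ℝ) (A : Fin n → Finset (Fin m)),
        (∀ j g, 0 ≤ v j g) ∧ (∀ j, ∃ g, 0 < v j g) ∧ IsAllocation A ∧ APSFair v w A ∧
        ∀ G : Finset (Fin m), G.card ≤ c →
          ∑ g ∈ A i ∪ G, v i g < w i * ∑ g, v i g := by
  classical
  intro n w i c hn hpos hsum hwi
  obtain ⟨K, hK⟩ := exists_nat_gt (max (n : ℝ) ((c : ℝ) / (2 * w i - 1)))
  have hKn : n < K := by exact_mod_cast (le_max_left _ _).trans_lt hK
  have hKc : (c : ℝ) < K * (2 * w i - 1) := by
    have h1 := (le_max_right (n : ℝ) ((c : ℝ) / (2 * w i - 1))).trans_lt hK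
    rwa [div_lt_iff₀ (by linarith)] at h1
  -- another agent
  obtain ⟨i', hi'⟩ : ∃ i' : Fin n, i' ≠ i := by
    have : Nontrivial (Fin n) := Fin.nontrivial_iff_two_le.2 hn
    exact exists_ne i
  have hn0 : 0 < n := by omega
  -- owner of an item
  let a : Fin (K + 1) → Fin n := fun g =>
    if g = 0 then i else if (⟨g.1 % n, Nat.mod_lt _ hn0⟩ : Fin n) = i then i'
      else ⟨g.1 % n, Nat.mod_lt _ hn0⟩
  have ha0 : a 0 = i := by simp [a]
  have hag : ∀ g, g ≠ 0 → a g ≠ i := by
    intro g hg
    simp only [a, if_neg hg]
    split_ifs with h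
    · exact hi'
    · exact h
  have hsurj : ∀ j, ∃ g, a g = j := by
    intro j
    by_cases hj : j = i
    · exact ⟨0, by rw [ha0, hj]⟩
    · by_cases hj0 : j.1 = 0
      · refine ⟨⟨n, by omega⟩, ?_⟩
        have h1 : (⟨n, by omega⟩ : Fin (K + 1)) ≠ 0 := by
          intro h
          have := congrArg Fin.val h
          simp at this
          omega
        have h2 : (⟨n % n, Nat.mod_lt _ hn0⟩ : Fin n) = j := by
          apply Fin.ext; simp [hj0]
        simp only [a, if_neg h1, h2, if_neg hj]
      · refine ⟨⟨j.1, by have := j.2; omega⟩, ?_⟩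
        have h1 : (⟨j.1, by have := j.2; omega⟩ : Fin (K + 1)) ≠ 0 := by
          intro h
          have := congrArg Fin.val h
          simp at this
          exact hj0 this
        have h2 : (⟨j.1 % n, Nat.mod_lt _ hn0⟩ : Fin n) = j := by
          apply Fin.ext; simp [Nat.mod_eq_of_lt j.2]
        simp only [a, if_neg h1, h2, if_neg hj]
  let vi : Fin (K + 1) → ℝ := fun g => if g = 0 then (K : ℝ) else 1
  let v : Fin n → Fin (K + 1) → ℝ := fun j g => if j = i then vi g else if a g = j then 1 else 0
  let A : Fin n → Finset (Fin (K + 1)) := fun j => univ.filter fun g => a g = j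
  have hKpos : (0 : ℝ) < K := by exact_mod_cast (by omega : 0 < K)
  have hvi0 : vi 0 = K := by simp [vi]
  have hvi1 : ∀ g, g ≠ 0 → vi g = 1 := fun g hg => by simp [vi, hg]
  have hAi : A i = {0} := by
    ext g
    simp only [A, mem_filter, mem_univ, true_and, mem_singleton]
    constructor
    · intro h
      by_contra hg
      exact hag g hg h
    · rintro rfl
      exact ha0
  have hvi : v i = vi := by
    funext g
    simp [v]
  have htot : ∑ g, vi g = 2 * K := by
    rw [Fin.sum_univ_succ, hvi0]
    have : ∀ g : Fin K, vi g.succ = 1 := fun g => hvi1 _ (Fin.succ_ne_zero g)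
    simp only [this]
    simp
    ring
  have hvnn : ∀ g, 0 ≤ vi g := by
    intro g
    simp only [vi]
    split_ifs
    · exact hKpos.le
    · exact zero_le_one
  refine ⟨K + 1, v, A, ?_, ?_, ?_, ?_, ?_⟩
  · intro j g
    simp only [v]
    split_ifs
    · exact hvnn g
    · exact zero_le_one
    · exact le_rfl
  · intro j
    by_cases hj : j = i
    · refine ⟨0, ?_⟩
      rw [hj, hvi, hvi0]
      exact hKpos
    · obtain ⟨g, hg⟩ := hsurj j
      exact ⟨g, by simp [v, hj, hg]⟩
  · intro g
    refine ⟨a g, by simp [A], ?_⟩
    intro j hj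
    simp only [A, mem_filter, mem_univ, true_and] at hj
    exact hj.symm
  · intro j
    by_cases hj : j = i
    · subst hj
      refine ⟨K, ?_, by rw [hAi, hvi]; simp [hvi0]⟩
      rw [hvi]
      constructor
      · refine ⟨Pi.single 0 1, ⟨fun g => ?_, by simp⟩, ?_⟩
        · by_cases h : g = 0
          · subst h; simp
          · simp [h]
        · constructor
          · refine ⟨univ.filter fun g => g ≠ 0, ?_, ?_⟩
            · rw [sum_eq_zero]
              · exact (hpos j).le
              · intro g hg
                have : g ≠ 0 := (mem_filter.1 hg).2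
                simp [this]
            · have h1 : ∑ g, vi g = vi 0 + ∑ g ∈ univ.filter fun g => g ≠ 0, vi g := by
                rw [← Finset.add_sum_erase univ vi (mem_univ 0)]
                congr 1
                apply sum_congr _ fun _ _ => rfl
                ext g
                simp
              rw [htot, hvi0] at h1
              linarith
          · rintro x ⟨S, hS, rfl⟩
            have h0 : (0 : Fin (K + 1)) ∉ S := by
              intro h0
              have h1 : (1 : ℝ) ≤ ∑ g ∈ S, (Pi.single (0 : Fin (K + 1)) (1 : ℝ) : Fin (K + 1) → ℝ) g := by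
                calc (1 : ℝ) = (Pi.single (0 : Fin (K + 1)) (1 : ℝ) : Fin (K + 1) → ℝ) 0 := by simp
                  _ ≤ _ := by
                    apply single_le_sum (f := (Pi.single (0 : Fin (K + 1)) (1 : ℝ) : Fin (K + 1) → ℝ)) _ h0
                    intro g _
                    by_cases h : g = 0
                    · subst h; simp
                    · simp [h]
              have h2 : w j < 1 := by
                rw [← hsum]
                have h3 : w j + w i' ≤ ∑ k, w k := by
                  rw [← Finset.add_sum_erase univ w (mem_univ j)]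
                  have : w i' ≤ ∑ k ∈ univ.erase j, w k :=
                    single_le_sum (f := w) (fun k _ => (hpos k).le) (by simp [hi'])
                  linarith
                have := hpos i'
                linarith
              linarith
            have h1 : ∑ g ∈ S, vi g + vi 0 ≤ ∑ g, vi g := by
              rw [← Finset.add_sum_erase univ vi (mem_univ 0), add_comm]
              have : ∑ g ∈ S, vi g ≤ ∑ g ∈ univ.erase 0, vi g := by
                apply sum_le_sum_of_subset_of_nonneg
                · intro g hg
                  simp only [mem_erase, mem_univ, and_true]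
                  rintro rfl
                  exact h0 hg
                · intro g _ _
                  exact hvnn g
              linarith
            rw [htot, hvi0] at h1
            linarith
      · rintro y ⟨p, ⟨hp0, hp1⟩, hy⟩
        by_cases hc : p 0 ≤ w j
        · exact hy.2 ⟨{0}, by simpa using hc, by simp [hvi0]⟩
        · push Not at hc
          refine hy.2 ⟨univ.erase 0, ?_, ?_⟩
          · have := Finset.add_sum_erase univ p (mem_univ 0)
            rw [hp1] at this
            linarith
          · have := Finset.add_sum_erase univ vi (mem_univ 0)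
            rw [htot, hvi0] at this
            linarith
    · obtain ⟨z, hz⟩ := exists_aps (Nat.succ_pos K) (v j) (hpos j).le
      refine ⟨z, hz, ?_⟩
      obtain ⟨⟨p, -, ⟨⟨S, -, hS⟩, -⟩⟩, -⟩ := hz
      rw [hS]
      have hz0 : ∀ g, v j g = if a g = j then 1 else 0 := fun g => by simp [v, hj]
      calc ∑ g ∈ S, v j g ≤ ∑ g, v j g := by
            apply sum_le_sum_of_subset_of_nonneg (subset_univ _)
            intro g _ _
            rw [hz0]
            split_ifs <;> norm_num
        _ = ∑ g ∈ A j, v j g := by
            symm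
            apply sum_subset (subset_univ _)
            intro g _ hg
            rw [hz0, if_neg]
            intro h
            exact hg (by simp [A, h])
  · intro G hG
    rw [hvi, htot, hAi]
    have h1 : ∑ g ∈ {0} ∪ G, vi g ≤ K + c := by
      have h2 : ({0} ∪ G : Finset (Fin (K + 1))) = insert 0 (G.erase 0) := by
        ext g
        simp only [mem_union, mem_singleton, mem_insert, mem_erase]
        tauto
      rw [h2, sum_insert (by simp), hvi0]
      have h3 : ∑ g ∈ G.erase 0, vi g = ∑ g ∈ G.erase 0, (1 : ℝ) :=
        sum_congr rfl fun g hg => hvi1 g (ne_of_mem_erase hg)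
      rw [h3]
      simp only [sum_const, nsmul_eq_mul, mul_one]
      have h4 : (G.erase 0).card ≤ c := (card_le_card (erase_subset _ _)).trans hG
      have h5 : ((G.erase 0).card : ℝ) ≤ c := by exact_mod_cast h4
      linarith
    nlinarith [h1, hKc]

end Pool.Agent.Results.MP_4956c5_co.NotPropC
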